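import Pool.Agent.H95.AD.TargetsU

/-!
# Row K0 of the board `adu_modules`: elementary facts on the Bessel function `K₀`
-/

set_option autoImplicit false

open MeasureTheory Set Filter
open scoped Real

namespace Pool.Agent.H96.AD

open Pool.Agent.H31.CN Pool.Agent.H95.AD

theorem one_add_sq_le_cosh {u : ℝ} (hu : 0 ≤ u) : 1 + u ^ 2 / 2 ≤ Real.cosh u := by
  have h1 : Real.cosh u = 1 + 2 * Real.sinh (u / 2) ^ 2 := by
    have h2 := Real.cosh_two_mul (u / 2)
    have h3 := Real.cosh_sq (u / 2)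
    have h4 : 2 * (u / 2) = u := by ring
    rw [h4] at h2
    rw [h2, h3]
    ring
  have h5 : u / 2 ≤ Real.sinh (u / 2) := Real.self_le_sinh_iff.mpr (by positivity)
  have h6 : (u / 2) ^ 2 ≤ Real.sinh (u / 2) ^ 2 := pow_le_pow_left₀ (by positivity) h5 2
  rw [h1]
  nlinarith

theorem exp_le_gauss {x u : ℝ} (hx : 0 < x) (hu : 0 ≤ u) :
    Real.exp (-(x * Real.cosh u)) ≤ Real.exp (-x) * Real.exp (-(x / 2) * u ^ 2) := by
  rw [← Real.exp_add]
  apply Real.exp_le_exp.mpr
  have h1 := one_add_sq_le_cosh hu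
  nlinarith [mul_le_mul_of_nonneg_left h1 hx.le]

theorem cont_k0 (x : ℝ) : Continuous (fun u : ℝ => Real.exp (-(x * Real.cosh u))) := by
  have := Real.continuous_cosh
  fun_prop

theorem integrable_k0 {x : ℝ} (hx : 0 < x) :
    IntegrableOn (fun u : ℝ => Real.exp (-(x * Real.cosh u))) (Ioi 0) := by
  have h1 : IntegrableOn (fun u : ℝ => Real.exp (-x) * Real.exp (-(x / 2) * u ^ 2)) (Ioi 0) :=
    ((integrable_exp_neg_mul_sq (half_pos hx)).const_mul _).integrableOn
  refine Integrable.mono' h1 (cont_k0 x).aestronglyMeasurable ?_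
  refine (ae_restrict_iff' measurableSet_Ioi).mpr (Eventually.of_forall fun u hu => ?_)
  rw [Real.norm_eq_abs, abs_of_pos (Real.exp_pos _)]
  exact exp_le_gauss hx (le_of_lt hu)

theorem k0_pos {x : ℝ} (hx : 0 < x) : 0 < k0 x := by
  unfold k0
  rw [setIntegral_pos_iff_support_of_nonneg_ae]
  · have h1 : Function.support (fun u : ℝ => Real.exp (-(x * Real.cosh u))) = univ := by
      ext u
      simp [Real.exp_ne_zero]
    rw [h1, univ_inter]
    simp
  · exact Eventually.of_forall fun u => (Real.exp_pos _).le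
  · exact integrable_k0 hx

theorem k0_le {x : ℝ} (hx : 0 < x) : k0 x ≤ 2 / Real.sqrt x * Real.exp (-x) := by
  have h1 : IntegrableOn (fun u : ℝ => Real.exp (-x) * Real.exp (-(x / 2) * u ^ 2)) (Ioi 0) :=
    ((integrable_exp_neg_mul_sq (half_pos hx)).const_mul _).integrableOn
  have h2 : k0 x ≤ ∫ u in Ioi (0 : ℝ), Real.exp (-x) * Real.exp (-(x / 2) * u ^ 2) :=
    setIntegral_mono_on (integrable_k0 hx) h1 measurableSet_Ioi
      (fun u hu => exp_le_gauss hx (le_of_lt hu))
  have h3 : (∫ u in Ioi (0 : ℝ), Real.exp (-x) * Real.exp (-(x / 2) * u ^ 2)) =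
      Real.exp (-x) * (Real.sqrt (π / (x / 2)) / 2) := by
    rw [integral_const_mul, integral_gaussian_Ioi]
  have h4 : Real.sqrt (π / (x / 2)) / 2 ≤ 2 / Real.sqrt x := by
    have h5 : Real.sqrt (π / (x / 2)) ≤ 4 / Real.sqrt x := by
      have h6 : 4 / Real.sqrt x = Real.sqrt (16 / x) := by
        rw [Real.sqrt_div (by norm_num)]
        congr 1
        rw [show (16 : ℝ) = 4 ^ 2 by norm_num, Real.sqrt_sq (by norm_num)]
      rw [h6]
      apply Real.sqrt_le_sqrt
      rw [div_div_eq_mul_div]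
      apply div_le_div_of_nonneg_right _ hx.le
      have := Real.pi_lt_four
      linarith
    have h7 : 2 / Real.sqrt x = (4 / Real.sqrt x) / 2 := by ring
    rw [h7]
    linarith
  calc k0 x ≤ Real.exp (-x) * (Real.sqrt (π / (x / 2)) / 2) := h2.trans h3.le
    _ ≤ Real.exp (-x) * (2 / Real.sqrt x) :=
        mul_le_mul_of_nonneg_left h4 (Real.exp_pos _).le
    _ = 2 / Real.sqrt x * Real.exp (-x) := by ring

theorem k0_anti {x y : ℝ} (hx : 0 < x) (hxy : x ≤ y) : k0 y ≤ k0 x := by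
  refine setIntegral_mono_on (integrable_k0 (hx.trans_le hxy)) (integrable_k0 hx)
    measurableSet_Ioi (fun u _ => ?_)
  apply Real.exp_le_exp.mpr
  have h1 : x * Real.cosh u ≤ y * Real.cosh u :=
    mul_le_mul_of_nonneg_right hxy (Real.cosh_pos u).le
  linarith

theorem pf_K0 : T_K0 := fun _ hx => ⟨integrable_k0 hx, k0_pos hx, k0_le hx, fun _ hy => k0_anti hx hy⟩

end Pool.Agent.H96.AD
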